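import Pool.Agent.H406.EDG.Main

/-!
# Orders on the line `Re s = 1` of the `L`-functions of tempered representations of `GSp(2n)`

Let `π` be an automorphic representation of `GSp(2n)` over `ℚ` which is unramified and tempered at the primes
outside the finite set `S`, with Satake parameters `x₀(p), x₁(p), …, xₙ(p)`, all of absolute value `1`, so that
`ρ(A_p)` has the eigenvalues `x₀^m ∏ x_l^{e_l}`, where `(m, e)` runs over the weights of the representation `ρ` of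
`GSpin(2n+1, ℂ)`; the spin representation has the weights `x₀ ∏_{l ∈ I} x_l`, `I ⊆ {1, …, n}`. (Automorphy is not
used.) Write `L(s, ρ, χ)` for the partial Euler product, twisted by the Dirichlet character `χ`.

Let `J` be a finite set of pairs `(χ, t)`, where `χ` is a character mod `N` and `t` is real.

* Without any continuation: `∑_J (log |L(σ + it, ρ, χ)|)² ≤ (dim ρ)² Λ² + O(Λ)` as `σ → 1+`, `Λ = log (1 / (σ - 1))`.
* If `L(s, ρ, χ)` is meromorphic at `1 + it` for all `(χ, t) ∈ J`, the sum of the squares of the orders is at most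
  `(dim ρ)²`.
* For the spin representation one may replace `(dim ρ)² = 4ⁿ` in both statements by `1 + k₁ + … + kₙ`, if
  `L(s, ∧^j std)` is meromorphic at `s = 1`, with a pole of order `k_j`, for `1 ≤ j ≤ n`.

The proof is Bessel's inequality for the functions `χ(p) p^{-it}` on the primes, which are asymptotically
orthonormal by the non-vanishing of the Dirichlet `L`-functions on the line `Re s = 1`; for the spin
representation, `|tr spin|² = ∑_{j ≤ n} tr ∧^j std`.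
-/

set_option autoImplicit false

open Filter Topology

namespace Pool.Agent.Results.MP_eea520_nt.OrdersOnTheEdge

/-- the primes outside `S` -/
abbrev Pr (S : Finset ℕ) := {p : Nat.Primes // (p : ℕ) ∉ S}

/-- The point `σ + i t`. -/
noncomputable def pt (σ t : ℝ) : ℂ := (σ : ℂ) + t * Complex.I

/-- The eigenvalues of `ρ(A)` for a representation `ρ` with the weights `(m i, e i)`, `i ∈ ι`, so that `dim ρ` is the
number of elements of `ι`; here `x0, x` are the Satake parameters of `A`. -/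
noncomputable def eigen {ι : Type} {n : ℕ} (m : ι → ℤ) (e : ι → Fin n → ℤ) (x0 : ℂ) (x : Fin n → ℂ) (i : ι) : ℂ :=
  x0 ^ m i * ∏ l, x l ^ e i l

/-- the eigenvalues `x₀ ∏_{i ∈ I} x_i` of the spin representation -/
noncomputable def spin {n : ℕ} (x0 : ℂ) (x : Fin n → ℂ) (I : Finset (Fin n)) : ℂ := x0 * ∏ i ∈ I, x i

/-- the eigenvalues `1`, `x_i`, `x_i⁻¹` of the standard representation, of dimension `2n+1` -/
noncomputable def std {n : ℕ} (x : Fin n → ℂ) : Option (Fin n ⊕ Fin n) → ℂ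
  | none => 1
  | some (Sum.inl i) => x i
  | some (Sum.inr i) => (x i)⁻¹

/-- the eigenvalues of the `j`-th exterior power of a representation with the eigenvalues `b` -/
noncomputable def ext {ι : Type} (j : ℕ) (b : ι → ℂ) (I : {I : Finset ι // I.card = j}) : ℂ := ∏ i ∈ I.1, b i

/-- The partial Euler product `∏_{p ∉ S} ∏_i (1 - a_i(p) χ(p) p^{-s})⁻¹`. -/
noncomputable def LL {S : Finset ℕ} {ι : Type} [Fintype ι] {N : ℕ} (a : Pr S → ι → ℂ) (χ : DirichletCharacter ℂ N)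
    (s : ℂ) : ℂ :=
  ∏' p : Pr S, ∏ i, (1 - a p i * χ ((p.1 : ℕ) : ZMod N) * ((p.1 : ℕ) : ℂ) ^ (-s))⁻¹

/-- `∑_{(χ, t) ∈ J} (log |L(σ + it, χ)|)² ≤ M Λ² + O(Λ)` as `σ → 1+`, where `Λ = log (1 / (σ - 1))` -/
def LogBound {S : Finset ℕ} {ι : Type} [Fintype ι] {N : ℕ} (a : Pr S → ι → ℂ)
    (J : Finset (DirichletCharacter ℂ N × ℝ)) (M : ℝ) : Prop :=
  ∃ C : ℝ, ∀ᶠ σ : ℝ in 𝓝[>] 1, ∑ q ∈ J, Real.log ‖LL a q.1 (pt σ q.2)‖ ^ 2 ≤
    M * Real.log (1 / (σ - 1)) ^ 2 + C * Real.log (1 / (σ - 1))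

/-- If the functions `F χ`, equal to `L(s, χ)` for `Re s > 1`, are meromorphic at the points `1 + it`, `(χ, t) ∈ J`,
the squares of their orders there have a sum which is at most `M`. -/
def OrderBound {S : Finset ℕ} {ι : Type} [Fintype ι] {N : ℕ} (a : Pr S → ι → ℂ)
    (J : Finset (DirichletCharacter ℂ N × ℝ)) (M : ℝ) : Prop :=
  ∀ F : DirichletCharacter ℂ N → ℂ → ℂ, (∀ q ∈ J, MeromorphicAt (F q.1) (pt 1 q.2)) →
    (∀ q ∈ J, ∀ s : ℂ, 1 < s.re → F q.1 s = LL a q.1 s) →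
    (∀ q ∈ J, meromorphicOrderAt (F q.1) (pt 1 q.2) ≠ ⊤) ∧
    (∑ q ∈ J, ((meromorphicOrderAt (F q.1) (pt 1 q.2)).untop₀ : ℝ) ^ 2) ≤ M

theorem norm_eigen {ι : Type} {n : ℕ} (m : ι → ℤ) (e : ι → Fin n → ℤ) {x0 : ℂ} {x : Fin n → ℂ} (h0 : ‖x0‖ = 1)
    (hx : ∀ l, ‖x l‖ = 1) (i : ι) : ‖eigen m e x0 x i‖ = 1 := by
  unfold eigen
  rw [norm_mul, norm_zpow, h0, one_zpow, one_mul, norm_prod]
  exact Finset.prod_eq_one fun l _ => by rw [norm_zpow, hx, one_zpow]

/-- **Orders on the line `Re s = 1`.** -/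
theorem result (S : Finset ℕ) {n : ℕ} (x0 : Pr S → ℂ) (x : Pr S → Fin n → ℂ) (h0 : ∀ p, ‖x0 p‖ = 1)
    (hx : ∀ p l, ‖x p l‖ = 1) {N : ℕ} [NeZero N] (J : Finset (DirichletCharacter ℂ N × ℝ)) :
    -- every representation `ρ`
    (∀ (ι : Type) [Fintype ι] (m : ι → ℤ) (e : ι → Fin n → ℤ),
      LogBound (fun p => eigen m e (x0 p) (x p)) J ((Fintype.card ι : ℝ) ^ 2) ∧
      OrderBound (fun p => eigen m e (x0 p) (x p)) J ((Fintype.card ι : ℝ) ^ 2)) ∧
    -- the spin representation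
    (∀ (k : ℕ → ℤ) (E : ℕ → ℂ → ℂ), (∀ j ∈ Finset.Icc 1 n, MeromorphicAt (E j) 1 ∧
        meromorphicOrderAt (E j) 1 = ((-(k j) : ℤ) : WithTop ℤ) ∧
        ∀ s : ℂ, 1 < s.re → E j s = LL (fun p : Pr S => ext j (std (x p))) (1 : DirichletCharacter ℂ 1) s) →
      LogBound (fun p => spin (x0 p) (x p)) J (1 + ∑ j ∈ Finset.Icc 1 n, (k j : ℝ)) ∧
      OrderBound (fun p => spin (x0 p) (x p)) J (1 + ∑ j ∈ Finset.Icc 1 n, (k j : ℝ))) := by
  have main : ∀ (ι : Type) [Fintype ι] (a : Pr S → ι → ℂ) (M : ℝ), (∀ p i, ‖a p i‖ = 1) →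
      (∃ C : ℝ, ∀ᶠ σ : ℝ in 𝓝[>] 1, ∑' p : Pr S, ‖∑ i, a p i‖ ^ 2 * Pool.Agent.H406.EDG.ww σ p ≤
        M * Pool.Agent.H406.EDG.Lam σ + C) → LogBound a J M ∧ OrderBound a J M := by
    intro ι _ a M ha hM
    refine ⟨Pool.Agent.H406.EDG.log_bound ha hM J, fun F hF hFL => ⟨fun q hq => ?_, ?_⟩⟩
    · exact Pool.Agent.H406.EDG.order_ne_top ha (hFL q hq)
    · exact Pool.Agent.H406.EDG.order_bound ha hM J F hF hFL
  refine ⟨fun ι _ m e => ?_, fun k E hE => ?_⟩
  · have ha : ∀ (p : Pr S) (i : ι), ‖eigen m e (x0 p) (x p) i‖ = 1 := fun p i => norm_eigen m e (h0 p) (hx p) i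
    exact main ι _ _ ha (Pool.Agent.H406.EDG.trivial_mean ha)
  · have ha : ∀ (p : Pr S) (I : Finset (Fin n)), ‖spin (x0 p) (x p) I‖ = 1 := fun p I =>
      Pool.Agent.H406.EDG.norm_spin (x0 p) (x p) (h0 p) (hx p) I
    refine main _ _ _ ha ?_
    exact Pool.Agent.H406.EDG.spin_mean h0 hx k E hE

end Pool.Agent.Results.MP_eea520_nt.OrdersOnTheEdge
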