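import Pool.Agent.Helper812_TC.Dist

/-!
# The traces of the Satake classes, if the `L`-functions continue to `s = 1`

Let `π` be an automorphic representation of `GSp(2n)` over `ℚ` which is unramified and tempered at the primes
outside the finite set `S`, with Satake parameters `x₀(p), x₁(p), …, xₙ(p)`, all of absolute value `1`, so that
`ρ(A_p)` has the eigenvalues `x₀^m ∏ x_l^{e_l}`, where `(m, e)` runs over the weights of the representation `ρ` of
`GSpin(2n+1, ℂ)`. (Automorphy is not used, and `(m, e)` may be any finite family of weights.)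

Question Q1 asks whether all the `L_S(s, π, ρ)` are meromorphic. Here only the point `s = 1` is used, and only for
tensor products of a few representations. Let `t(p) = tr ρ(A_p) - tr ρ'(A_p)` be real for all `p`, for example
`tr ρ(A_p)` for a self-dual `ρ`, or `|tr ρ(A_p)|²`. Densities are Dirichlet densities.

1. Let `Q` be an integer polynomial of degree at most `r`, and let `L_S(s, π, ρ^{⊗ j} ⊗ ρ'^{⊗ l})` be meromorphic
   at `s = 1` for `1 ≤ j + l ≤ 2 r`. Then `Q(t(p))` tends to zero outside sets of density zero, or for every `ε > 0`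
   the set of all `p` with `|Q(t(p))| > 1 - ε` does not have the density zero.
2. Let `L_S(s, π, ρ^{⊗ j} ⊗ ρ'^{⊗ l})` be meromorphic at `s = 1` for all `j`, `l`. Then the numbers `t(p)` have a
   limiting distribution, all moments of which are integers. Its support `Σ` is either a finite set, and
   then `∏_{v ∈ Σ} (X - v)` has integral coefficients (so `Σ` consists of algebraic integers and contains all
   their conjugates) and every `v ∈ Σ` has a positive density; or the logarithmic capacity of `Σ` is at least one: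
   every monic real polynomial `P` satisfies `|P(x)| ≥ 1` for an `x ∈ Σ`. If `Σ` is infinite and contained in an
   interval `[a, a + 4]`, then `Σ = [a, a + 4]`. In particular an infinite `Σ` is not contained in an
   interval of length less than `4`.
3. Let `ρ` be arbitrary, and let `L_S(s, π, (ρ ⊗ ρ^∨)^{⊗ k})` be meromorphic at `s = 1` for all `k`. Then either
   `|tr ρ(A_p)|²` has only finitely many limit values, as in 2., or for every `ε > 0` the set of all `p` with
   `|tr ρ(A_p)| > 2 - ε` does not have the density zero.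

Proof. The order of the pole at `s = 1` is the mean value of the trace, so that all integer polynomials in `t(p)`
have integral mean values. If the mean value of `Q(t(p))²` is less than one, it is zero. If the support has
capacity less than one, there is a nonzero integer polynomial `Q` with `|Q| < 1` on it, by the pigeonhole principle
(Hilbert, Fekete). A finite support with integral moments is treated with the Gram matrix of the moments. The
statement on the intervals of length `4` follows from a modification of the Chebyshev polynomials, some zeros of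
which are moved to the ends of the gap.
-/

set_option autoImplicit false

open Filter Topology Polynomial

namespace Pool.Agent.Results.MP_eea520_nt.TracesAndCapacity

/-- the primes outside `S` -/
abbrev Pr (S : Finset ℕ) := {p : Nat.Primes // (p : ℕ) ∉ S}

/-- The eigenvalues of `ρ(A)` for a representation `ρ` with the weights `(m i, e i)`, `i ∈ ι`; here `x0, x` are the
Satake parameters of `A`. -/
noncomputable def eigen {ι : Type} {n : ℕ} (m : ι → ℤ) (e : ι → Fin n → ℤ) (x0 : ℂ) (x : Fin n → ℂ) (i : ι) : ℂ :=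
  x0 ^ m i * ∏ l, x l ^ e i l

/-- The eigenvalues of `ρ^{⊗ j} ⊗ ρ'^{⊗ l}`, if `ρ` has the eigenvalues `a` and `ρ'` has the eigenvalues `b`. -/
noncomputable def tensor {ι ι' : Type} (j l : ℕ) (a : ι → ℂ) (b : ι' → ℂ)
    (w : (Fin j → ι) × (Fin l → ι')) : ℂ :=
  (∏ r, a (w.1 r)) * ∏ r, b (w.2 r)

/-- The eigenvalues of `(ρ ⊗ ρ^∨)^{⊗ k}`, if `ρ` is unitary with the eigenvalues `a`. -/
noncomputable def absTensor {ι : Type} (k : ℕ) (a : ι → ℂ) (w : Fin k → ι × ι) : ℂ :=
  ∏ r, (a (w r).1 * (a (w r).2)⁻¹)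

/-- The partial Euler product `∏_{p ∉ S} ∏_i (1 - a_i(p) p^{-s})⁻¹`. -/
noncomputable def LL {S : Finset ℕ} {ι : Type} [Fintype ι] (a : Pr S → ι → ℂ) (s : ℂ) : ℂ :=
  ∏' p : Pr S, ∏ i, (1 - a p i * ((p.1 : ℕ) : ℂ) ^ (-s))⁻¹

/-- The partial Euler product continues to a function which is meromorphic at `s = 1`. -/
def ContinuesToOne {S : Finset ℕ} {ι : Type} [Fintype ι] (a : Pr S → ι → ℂ) : Prop :=
  ∃ E : ℂ → ℂ, MeromorphicAt E 1 ∧ ∀ s : ℂ, 1 < s.re → E s = LL a s

/-- `f` has the mean value `M` in the sense of Dirichlet density: `∑ f(p) p^{-σ} ~ M log (1 / (σ - 1))`. -/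
def HasMean {S : Finset ℕ} (f : Pr S → ℝ) (M : ℝ) : Prop :=
  Tendsto (fun σ : ℝ => (∑' p : Pr S, f p * ((p.1 : ℕ) : ℝ) ^ (-σ)) / Real.log (1 / (σ - 1))) (𝓝[>] 1) (𝓝 M)

/-- the Dirichlet density of a set of primes -/
def HasDensity {S : Finset ℕ} (B : Set (Pr S)) (δ : ℝ) : Prop := HasMean (Set.indicator B fun _ => 1) δ

/-- The support of the distribution of the values of `t`: all `x` such that, for every `ε > 0`, the set of all `p`
with `|t(p) - x| < ε` does not have the density zero. -/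
def Limits {S : Finset ℕ} (t : Pr S → ℝ) : Set ℝ := {x | ∀ ε : ℝ, 0 < ε → ¬ HasDensity {p | |t p - x| < ε} 0}

/-- The support is finite, it is the set of all zeros of a monic integer polynomial, and its points have positive
densities. -/
def FinitelyMany {S : Finset ℕ} (t : Pr S → ℝ) : Prop :=
  ∃ V : Finset ℝ, Limits t = V ∧
    (∃ Q : ℤ[X], Q.map (Int.castRingHom ℝ) = ∏ v ∈ V, (X - Polynomial.C v)) ∧
    ∀ v ∈ V, ∃ δ : ℝ, 0 < δ ∧ ∀ ε : ℝ, 0 < ε → (∀ w ∈ V, w ≠ v → ε < |w - v|) →
      HasDensity {p | |t p - v| < ε} δ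

/-- The logarithmic capacity of the support is at least one. -/
def LargeCapacity {S : Finset ℕ} (t : Pr S → ℝ) : Prop :=
  ∀ P : ℝ[X], P.Monic → ∃ x ∈ Limits t, 1 ≤ |P.eval x|

theorem norm_eigen {ι : Type} {n : ℕ} (m : ι → ℤ) (e : ι → Fin n → ℤ) {x0 : ℂ} {x : Fin n → ℂ} (h0 : ‖x0‖ = 1)
    (hx : ∀ l, ‖x l‖ = 1) (i : ι) : ‖eigen m e x0 x i‖ = 1 := by
  unfold eigen
  rw [norm_mul, norm_zpow, h0, one_zpow, one_mul, norm_prod]
  exact Finset.prod_eq_one fun l _ => by rw [norm_zpow, hx, one_zpow]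

theorem LL_eq {S : Finset ℕ} {ι : Type} [Fintype ι] (a : Pr S → ι → ℂ) (s : ℂ) :
    LL a s = Pool.Agent.H406.EDG.LL a (1 : DirichletCharacter ℂ 1) s := by
  unfold LL Pool.Agent.H406.EDG.LL
  refine tprod_congr fun p => Finset.prod_congr rfl fun i _ => ?_
  rw [MulChar.one_apply (isUnit_of_subsingleton _), mul_one]

theorem mero_of {S : Finset ℕ} {ι : Type} [Fintype ι] {a : Pr S → ι → ℂ} (h : ContinuesToOne a) :
    Pool.Agent.Helper812_TC.Mero a := by
  obtain ⟨E, hE, hEL⟩ := h
  exact ⟨E, hE, fun s hs => by rw [hEL s hs, LL_eq]⟩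

/-- **Traces and capacity.** -/
theorem result (S : Finset ℕ) {n : ℕ} (x0 : Pr S → ℂ) (x : Pr S → Fin n → ℂ) (h0 : ∀ p, ‖x0 p‖ = 1)
    (hx : ∀ p l, ‖x p l‖ = 1) :
    -- 1. and 2.: real-valued differences of traces
    (∀ (ι ι' : Type) [Fintype ι] [Fintype ι'] (m : ι → ℤ) (e : ι → Fin n → ℤ) (m' : ι' → ℤ)
      (e' : ι' → Fin n → ℤ) (t : Pr S → ℝ),
      (∀ p, ∑ i, eigen m e (x0 p) (x p) i - ∑ i, eigen m' e' (x0 p) (x p) i = (t p : ℂ)) →
      (∀ r : ℕ,
        (∀ j l : ℕ, 1 ≤ j + l → j + l ≤ 2 * r → ContinuesToOne fun p : Pr S =>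
          tensor j l (eigen m e (x0 p) (x p)) (eigen m' e' (x0 p) (x p))) →
        ∀ Q : ℤ[X], Q.natDegree ≤ r →
          (∀ ε : ℝ, 0 < ε → HasDensity {p | ε ≤ |(Q.map (Int.castRingHom ℝ)).eval (t p)|} 0) ∨
          ∀ ε : ℝ, 0 < ε → ¬ HasDensity {p | 1 - ε < |(Q.map (Int.castRingHom ℝ)).eval (t p)|} 0) ∧
      ((∀ j l : ℕ, 1 ≤ j + l → ContinuesToOne fun p : Pr S =>
          tensor j l (eigen m e (x0 p) (x p)) (eigen m' e' (x0 p) (x p))) →
        (∀ g : ℝ → ℝ, Continuous g → ∃ M : ℝ, HasMean (fun p => g (t p)) M) ∧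
        (∀ Q : ℤ[X], ∃ M : ℤ, HasMean (fun p => (Q.map (Int.castRingHom ℝ)).eval (t p)) M) ∧
        (FinitelyMany t ∨ LargeCapacity t) ∧
        ((Limits t).Infinite → ∀ a : ℝ, Limits t ⊆ Set.Icc a (a + 4) → Limits t = Set.Icc a (a + 4)))) ∧
    -- 3.: the absolute values of all traces
    (∀ (ι : Type) [Fintype ι] (m : ι → ℤ) (e : ι → Fin n → ℤ),
      (∀ k : ℕ, 1 ≤ k → ContinuesToOne fun p : Pr S => absTensor k (eigen m e (x0 p) (x p))) →
      FinitelyMany (fun p : Pr S => ‖∑ i, eigen m e (x0 p) (x p) i‖ ^ 2) ∨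
      ∀ ε : ℝ, 0 < ε → ¬ HasDensity {p : Pr S | 2 - ε < ‖∑ i, eigen m e (x0 p) (x p) i‖} 0) := by
  refine ⟨fun ι ι' _ _ m e m' e' t ht => ⟨fun r H Q hQ => ?_, fun H => ?_⟩, fun ι _ m e H => ?_⟩
  · have ha : ∀ (p : Pr S) (i : ι), ‖eigen m e (x0 p) (x p) i‖ = 1 := fun p i => norm_eigen m e (h0 p) (hx p) i
    have hb : ∀ (p : Pr S) (i : ι'), ‖eigen m' e' (x0 p) (x p) i‖ = 1 :=
      fun p i => norm_eigen m' e' (h0 p) (hx p) i
    have htb := Pool.Agent.Helper812_TC.Bd_t ha hb ht
    have hpow := Pool.Agent.Helper812_TC.pow_mean ha hb ht (r := 2 * r) (fun j l h1 h2 => mero_of (H j l h1 h2))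
    obtain ⟨M, hM⟩ := Pool.Agent.Helper812_TC.poly_mean htb hpow (Q ^ 2) (by
      rw [natDegree_pow]; omega)
    have e : Pool.Agent.Helper812_TC.rl (Q ^ 2) = (Pool.Agent.Helper812_TC.rl Q) ^ 2 := by
      simp
    rw [e] at hM
    exact Pool.Agent.Helper812_TC.first_step htb (Pool.Agent.Helper812_TC.rl Q) M hM
  · have ha : ∀ (p : Pr S) (i : ι), ‖eigen m e (x0 p) (x p) i‖ = 1 := fun p i => norm_eigen m e (h0 p) (hx p) i
    have hb : ∀ (p : Pr S) (i : ι'), ‖eigen m' e' (x0 p) (x p) i‖ = 1 :=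
      fun p i => norm_eigen m' e' (h0 p) (hx p) i
    have htb := Pool.Agent.Helper812_TC.Bd_t ha hb ht
    have HI : ∀ Q : ℤ[X], ∃ M : ℤ, Pool.Agent.Helper812_TC.HM
        (fun p => (Pool.Agent.Helper812_TC.rl Q).eval (t p)) M := fun Q =>
      Pool.Agent.Helper812_TC.poly_mean htb (Pool.Agent.Helper812_TC.pow_mean ha hb ht (r := Q.natDegree)
        (fun j l h1 _ => mero_of (H j l h1))) Q le_rfl
    exact ⟨fun g hg => Pool.Agent.Helper812_TC.cont_mean htb HI g hg, HI,
      Pool.Agent.Helper812_TC.dichotomy htb HI, fun hinf a h => Pool.Agent.Helper812_TC.rigid htb HI hinf a h⟩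
  · classical
    have ha : ∀ (p : Pr S) (i : ι), ‖eigen m e (x0 p) (x p) i‖ = 1 := fun p i => norm_eigen m e (h0 p) (hx p) i
    set c : Pr S → ι × ι → ℂ := fun p q => eigen m e (x0 p) (x p) q.1 * (eigen m e (x0 p) (x p) q.2)⁻¹ with hc
    have hcn : ∀ p q, ‖c p q‖ = 1 := fun p q => by
      simp only [hc]
      rw [norm_mul, norm_inv, ha, ha]
      norm_num
    set d : Pr S → Fin 0 → ℂ := fun _ i => i.elim0 with hd
    have hdn : ∀ p i, ‖d p i‖ = 1 := fun p i => i.elim0
    set t : Pr S → ℝ := fun p => ‖∑ i, eigen m e (x0 p) (x p) i‖ ^ 2 with htdef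
    have ht : ∀ p, ∑ i, c p i - ∑ i, d p i = (t p : ℂ) := by
      intro p
      rw [Fintype.sum_prod_type]
      simp only [hc, htdef, Finset.univ_eq_empty, Finset.sum_empty, sub_zero]
      have e1 : ∀ i, (eigen m e (x0 p) (x p) i)⁻¹ = (starRingEnd ℂ) (eigen m e (x0 p) (x p) i) := by
        intro i
        rw [Complex.inv_def, Complex.normSq_eq_norm_sq, ha p i]
        simp
      simp only [e1]
      simp only [← Finset.mul_sum]
      rw [← Finset.sum_mul, ← map_sum, Complex.mul_conj, Complex.normSq_eq_norm_sq]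
    have hmero : ∀ j l : ℕ, 1 ≤ j + l → Pool.Agent.Helper812_TC.Mero fun p : Pr S =>
        Pool.Agent.Helper812_TC.tensor j l (c p) (d p) := by
      intro j l hjl
      rcases l with _ | l
      · obtain ⟨E, hE, hEL⟩ := H j (by omega)
        refine ⟨E, hE, fun s hs => ?_⟩
        rw [hEL s hs, LL_eq]
        unfold Pool.Agent.H406.EDG.LL
        refine tprod_congr fun p => ?_
        refine Fintype.prod_equiv (Equiv.prodUnique (Fin j → ι × ι) (Fin 0 → Fin 0)).symm _ _ fun w => ?_
        have e2 : Pool.Agent.Helper812_TC.tensor j 0 (c p) (d p)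
            ((Equiv.prodUnique (Fin j → ι × ι) (Fin 0 → Fin 0)).symm w) =
            absTensor j (eigen m e (x0 p) (x p)) w := by
          unfold Pool.Agent.Helper812_TC.tensor absTensor
          simp [hc]
        beta_reduce
        rw [e2]
      · refine ⟨fun _ => 1, analyticAt_const.meromorphicAt, fun s _ => ?_⟩
        unfold Pool.Agent.H406.EDG.LL
        have hemp : IsEmpty ((Fin j → ι × ι) × (Fin (l + 1) → Fin 0)) :=
          ⟨fun w => (w.2 0).elim0⟩
        simp
    have htb := Pool.Agent.Helper812_TC.Bd_t hcn hdn ht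
    have HI : ∀ Q : ℤ[X], ∃ M : ℤ, Pool.Agent.Helper812_TC.HM
        (fun p => (Pool.Agent.Helper812_TC.rl Q).eval (t p)) M := fun Q =>
      Pool.Agent.Helper812_TC.poly_mean htb (Pool.Agent.Helper812_TC.pow_mean hcn hdn ht (r := Q.natDegree)
        (fun j l h1 _ => hmero j l h1)) Q le_rfl
    rcases Pool.Agent.Helper812_TC.dichotomy htb HI with h1 | h1
    · exact Or.inl h1
    · right
      intro ε hε hN
      have hinf := Pool.Agent.Helper812_TC.not_finite_of_large h1
      set c' : ℝ := max (2 - ε) 0 with hc'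
      have h2 : c' < 2 := max_lt (by linarith) (by norm_num)
      have h3 : 0 ≤ c' := le_max_right _ _
      refine Pool.Agent.Helper812_TC.large_values htb (fun p => by simp only [htdef]; positivity) HI hinf (c' ^ 2)
        (by nlinarith) ?_
      refine Pool.Agent.Helper812_TC.Nl.mono (fun p hp => ?_) hN
      have h4 : c' ^ 2 < ‖∑ i, eigen m e (x0 p) (x p) i‖ ^ 2 := hp
      have h5 : c' < ‖∑ i, eigen m e (x0 p) (x p) i‖ := lt_of_pow_lt_pow_left₀ 2 (norm_nonneg _) h4
      exact lt_of_le_of_lt (le_max_left _ _) h5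

end Pool.Agent.Results.MP_eea520_nt.TracesAndCapacity
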